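import Pool.Agent.Y97.FD.Geo6
import Pool.Agent.Y97.AB.Tau
import Pool.Agent.Y97.AB.GDefs
import Pool.Agent.Y710.AB.One

/-!
# Positivity of the tensors in two slots from the Hodge index theorem
-/

set_option linter.unusedSectionVars false

open CategoryTheory AlgebraicGeometry Finset

universe u v

namespace Pool.Agent.Y504.AB

open Pool.Agent.H914 Pool.Agent.H914.VarClass Pool.Agent.H914.VarClass.Obj
  Pool.Agent.H914.WeilCohomology Pool.Agent.H281R3.HT Pool.Agent.W552 Pool.Agent.W539.Ker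
  Pool.Agent.Y97 Pool.Agent.Y97.FD Pool.Agent.Y97.AB Pool.Agent.Y710.AB

variable {k : Type u} [Field k] {𝒱 : VarClass k} {ops : CycleOps 𝒱}
  {W : WeilCohomology.{u, v} ops} {P : Polarized 𝒱} {f : Module.End W.K (W.H P.X)}

/-- The form on the classes with given coordinates. -/
lemma bfs_TT (G : Gp W P.X P.D f) (b : HB W P.X) {q : ℚ} (hq : q ≠ 0)
    (hq1 : bf W P.X P.D f 1 1 = (q : W.K)) (s : ℕ)
    (g h : (Fin (s + 1) → Fin (N1 b)) → W.K) :
    bfs W P f s (TT (ops := ops) b s g) (TT (ops := ops) b s h) =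
      (q : W.K) ^ (s + 1) * dG (G1 b f) g h := by
  have hqK : (q : W.K) ≠ 0 := by exact_mod_cast hq
  rw [Pool.Agent.Y97.AB.TT, Pool.Agent.Y97.AB.TT, map_sum (bfs W P f s), LinearMap.sum_apply,
    dG, dot, Finset.mul_sum]
  refine Finset.sum_congr rfl fun x _ => ?_
  rw [map_smul, LinearMap.smul_apply, map_sum, act_apply, smul_eq_mul, mul_left_comm]
  congr 1
  rw [Finset.mul_sum]
  refine Finset.sum_congr rfl fun y _ => ?_
  rw [map_smul, bfs_vec G, smul_eq_mul]
  have h1 : ∏ i, G1 b f (x i) (y i) = ((q : W.K) ^ (s + 1))⁻¹ *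
      ∏ i, Gm b f (j1 b (x i)) (j1 b (y i)) := by
    rw [Finset.prod_congr rfl fun i _ => G1_eq b hq1 (x i) (y i), Finset.prod_mul_distrib,
      Finset.prod_const, Finset.card_univ, Fintype.card_fin, inv_pow]
  rw [h1]
  field_simp

/-- The frame of a power kills the classes with given coordinates. -/
lemma frm_TT (G : Gp W P.X P.D f) (b : HB W P.X) (s : ℕ)
    (g : (Fin (s + 1) → Fin (N1 b)) → W.K) :
    frm W P f s (TT (ops := ops) b s g) = 0 := by
  have h1 : ∀ (s : ℕ) (x : Fin (s + 1) → Fin (N1 b)),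
      frm W P f s (vec (ops := ops) b s (fun l => j1 b (x l))) = 0 := by
    intro s
    induction s with
    | zero =>
      intro x
      have h2 : b.e (j1 b (x 0)) ∈ W.gr P.X 1 := e1_mem b (x 0)
      exact (G.fr.f_gr h2).2 (by norm_num)
    | succ s ih =>
      intro x
      have h2 : b.e (j1 b (x 0)) ∈ W.gr P.X 1 := e1_mem b (x 0)
      have h3 := extSum_tmul (W := W) f (frm W P f s) (b.e (j1 b (x 0)))
        (vec b s (fun i => j1 b (x i.succ)))
      refine (Eq.trans h3 ?_)
      rw [(G.fr.f_gr h2).2 (by norm_num), ih (fun i => x i.succ), map_zero, map_zero, mul_zero,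
        zero_mul, add_zero]
      rfl
  rw [Pool.Agent.Y97.AB.TT, map_sum]
  refine Finset.sum_eq_zero fun x _ => ?_
  rw [map_smul, h1, smul_zero]

/-- The degree of the classes with given coordinates. -/
lemma TT_mem (b : HB W P.X) (s : ℕ) (g : (Fin (s + 1) → Fin (N1 b)) → W.K) :
    TT (ops := ops) b s g ∈ W.gr (power ops P s).X (s + 1) := by
  rw [Pool.Agent.Y97.AB.TT]
  refine Submodule.sum_mem _ fun x _ => Submodule.smul_mem _ _ ?_
  have h1 := Pool.Agent.Y333.FD.vec_mem (ops := ops) b s (fun l => j1 b (x l))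
  rw [Finset.sum_congr rfl fun i _ => j1_dg b (x i), Finset.sum_const, Finset.card_univ,
    Fintype.card_fin, smul_eq_mul, mul_one] at h1
  exact h1

/-- **The form is positive on the algebraic tensors in two slots.** -/
theorem a1_two_pos (G : Gp W P.X P.D f) (b : HB W P.X) {q : ℚ} (hq : 0 < q)
    (hq1 : bf W P.X P.D f 1 1 = (q : W.K))
    (hI : HodgeIndex W (power ops P 1).X (power ops P 1).D)
    (g : (Fin 2 → Fin (N1 b)) → W.K) (hg : A1 (ops := ops) b 2 g) (r : ℚ)
    (hr : dG (G1 b f) g g = (r : W.K)) :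
    0 ≤ r ∧ (r = 0 → ∀ h, A1 (ops := ops) b 2 h → dG (G1 b f) g h = 0) := by
  by_cases hd : P.X.dim = 0
  · have hN : N1 b = 0 := by
      by_contra h0
      have h1 : (W.gr P.X 1 : Submodule W.K (W.H P.X)) = ⊥ := W.gr_eq_bot P.X 1 (by omega)
      have h2 := e1_mem b ⟨0, Nat.pos_of_ne_zero h0⟩
      rw [h1] at h2
      exact b.e.ne_zero _ ((Submodule.mem_bot _).1 h2)
    have hE : IsEmpty (Fin 2 → Fin (N1 b)) := ⟨fun x => by
      have h1 := (x 0).2
      omega⟩
    have h0 : ∀ h, dG (G1 b f) g h = 0 := fun h => by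
      rw [dG, dot]
      exact Finset.sum_eq_zero fun x _ => (hE.false x).elim
    rw [h0] at hr
    have hr0 : r = 0 := by exact_mod_cast hr.symm
    exact ⟨hr0.ge, fun _ h _ => h0 h⟩
  have hdim : 2 ≤ (power ops P 1).X.dim := by
    have h1 : (power ops P 1).X.dim = P.X.dim + P.X.dim := rfl
    omega
  have F := (gp_frm (ops := ops) G 1).fr
  -- the class
  have hTT : ∀ h : (Fin 2 → Fin (N1 b)) → W.K, A1 (ops := ops) b 2 h →
      AS W _ (TT (ops := ops) b 1 h) := by
    rintro h ⟨c, hc, rfl⟩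
    exact TT_as G b hc
  have hc : TT (ops := ops) b 1 g ∈ algClasses W (power ops P 1).X 1 :=
    (hTT g hg).alg (TT_mem b 1 g)
  obtain ⟨z, hz, hzc⟩ := hc
  have hprim : W.cl (power ops P 1).X
      (divPow ops (power ops P 1).D ((power ops P 1).X.dim - 2 * 1 + 1) z) = 0 := by
    rw [cl_divPow]
    refine F.sl2.e_pow_zero (m := (power ops P 1).X.dim - 2 * 1) ?_ ?_ (Nat.lt_succ_self _)
    · rw [hzc]
      exact frm_TT G b 1 g
    · rw [Fr.wt_gr (W.cl_mem hz)]
      congr 1
      rw [Nat.cast_sub (by omega)]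
      push_cast
      ring
  have h1 : bfs W P f 1 (W.cl (power ops P 1).X z) (W.cl (power ops P 1).X z) =
      (((((power ops P 1).X.dim - 2 * 1).factorial : ℚ)⁻¹ *
        pairing ops (power ops P 1).X (power ops P 1).D 1 z z : ℚ) : W.K) := by
    have h2 := F.form_prim (by omega) hz hprim
    refine h2.trans ?_
    rw [pairing]
    congr 1
    ring
  have h2 : bfs W P f 1 (W.cl (power ops P 1).X z) (W.cl (power ops P 1).X z) =
      ((q ^ 2 * r : ℚ) : W.K) := by
    rw [hzc, bfs_TT G b hq.ne' hq1, hr]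
    push_cast
    rfl
  have h3 : q ^ 2 * r = (((power ops P 1).X.dim - 2 * 1).factorial : ℚ)⁻¹ *
      pairing ops (power ops P 1).X (power ops P 1).D 1 z z := by
    have h4 := h2.symm.trans h1
    exact_mod_cast h4
  by_cases hnt : ∃ w, (power ops P 1).X.IsCyc ((power ops P 1).X.dim - 1) w ∧
      (power ops P 1).X.V.degCycle (ops.mul z w) ≠ 0
  · have h4 := hI hdim z ⟨hz, hprim⟩ hnt
    have h5 : 0 < q ^ 2 * r := by
      rw [h3]
      positivity
    have h6 : 0 < r := (mul_pos_iff_of_pos_left (by positivity)).1 h5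
    exact ⟨h6.le, fun h => absurd h h6.ne'⟩
  · push Not at hnt
    have h4 : ∀ d, AS W (power ops P 1).X d → bfs W P f 1 (TT (ops := ops) b 1 g) d = 0 := by
      intro d hd
      rw [← hzc]
      exact bf_num F hz hnt hd
    have hqK : (q : W.K) ≠ 0 := by exact_mod_cast hq.ne'
    have h5 : ∀ h, A1 (ops := ops) b 2 h → dG (G1 b f) g h = 0 := by
      intro h hh
      have h6 := h4 _ (hTT h hh)
      rw [bfs_TT G b hq.ne' hq1] at h6
      exact (mul_eq_zero.1 h6).resolve_left (pow_ne_zero _ hqK)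
    have h6 := h5 g hg
    rw [hr] at h6
    have hr0 : r = 0 := by exact_mod_cast h6
    exact ⟨hr0.ge, fun _ => h5⟩

end Pool.Agent.Y504.AB
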